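import Mathlib

/-!
# Project MVS, part V: the definitions used in the final statement

The homotopical invariants `Σ^n(S)` in terms of free simplicial `S`-complexes.

* `Rz K`: the geometric realization of the simplicial complex `K`, in barycentric coordinates;
* `Fills k A B`: every continuous map `∂I^{k+1} → A` extends to a continuous map `I^{k+1} → B`
  (so `Fills k X X` for all `k < n`, with `X` nonempty, means that `X` is `(n-1)`-connected);
* `FreeCx S V K`: `K` is a simplicial complex with vertex set `V` on which `S` acts freely with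
  finitely many orbits of simplices;
* `sup K h t`: the largest subcomplex of `K` contained in `{h ≥ t}`;
* `InSigmaTop n χ`: the filtration by the subcomplexes in `{h ≥ t}` is essentially
  `(n-1)`-connected, for all `(n-1)`-connected complexes `K` as above and all height functions `h`.
-/

set_option linter.all false

namespace Pool.Agent.Lib.MP_b1a3a4_al.MVS.TH

/-- The geometric realization of the simplicial complex `K` (a set of finite sets of vertices):
all functions `x ≥ 0` on the set `V` of vertices which are supported on a simplex of `K` and have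
sum `1`. The topology is that of pointwise convergence; for a locally finite complex (such as all
complexes with `FreeCx` below) it is the usual topology of the realization. -/
def Rz {V : Type} (K : Set (Finset V)) : Set (V → ℝ) :=
  {x | (∀ v, 0 ≤ x v) ∧ ∃ σ ∈ K, (∀ v, v ∉ σ → x v = 0) ∧ ∑ v ∈ σ, x v = 1}

/-- The action on the realization: translation of functions. -/
def tr {S V : Type} [Group S] [MulAction S V] (s : S) (x : V → ℝ) : V → ℝ :=
  fun v => x (s⁻¹ • v)

/-- The translate of a finite set of vertices. -/
def trs {S V : Type} [Group S] [MulAction S V] (s : S) (σ : Finset V) : Finset V :=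
  σ.map ⟨fun v => s • v, MulAction.injective s⟩

/-- Every continuous map from the boundary of the cube `I^{k+1}` to `A` extends to a continuous map
from the cube to `B`. -/
def Fills {Z : Type} [TopologicalSpace Z] (k : ℕ) (A B : Set Z) : Prop :=
  ∀ f : (Fin (k + 1) → unitInterval) → Z,
    ContinuousOn f (Cube.boundary (Fin (k + 1))) →
    (∀ x ∈ Cube.boundary (Fin (k + 1)), f x ∈ A) →
    ∃ g : (Fin (k + 1) → unitInterval) → Z, Continuous g ∧ (∀ x, g x ∈ B) ∧
      ∀ x ∈ Cube.boundary (Fin (k + 1)), g x = f x

/-- `K` is a simplicial complex with vertex set `V`, and the action of `S` on `V` is a free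
simplicial action on `K` with finitely many orbits of simplices. -/
structure FreeCx (S : Type) [Group S] (V : Type) [MulAction S V] (K : Set (Finset V)) :
    Prop where
  vert : ∀ v : V, {v} ∈ K
  nonempty : ∀ σ ∈ K, σ.Nonempty
  down : ∀ σ ∈ K, ∀ τ, τ ⊆ σ → τ.Nonempty → τ ∈ K
  inv : ∀ s : S, ∀ σ ∈ K, trs s σ ∈ K
  free : ∀ (s : S) (v : V), s • v = v → s = 1
  cofin : ∃ F : Set (Finset V), F.Finite ∧ ∀ σ ∈ K, ∃ s : S, ∃ τ ∈ F, σ = trs s τ

/-- The largest subcomplex of `K` whose realization is contained in `{h ≥ t}`. -/
def sup {V : Type} (K : Set (Finset V)) (h : (V → ℝ) → ℝ) (t : ℝ) : Set (Finset V) :=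
  {σ | σ ∈ K ∧ ∀ x ∈ Rz K, (∀ v, v ∉ σ → x v = 0) → t ≤ h x}

/-- `[χ] ∈ Σ^n(S)` (homotopical invariant): for every `(n-1)`-connected free simplicial `S`-complex
`K` with finitely many orbits of simplices (for instance the `n`-skeleton of a contractible free
simplicial `S`-complex with finitely many orbits of simplices of dimension `≤ n`) and every
continuous `h : |K| → ℝ` with `h(s x) = h(x) + χ(s)`, the filtration of `K` by the subcomplexes in
`{h ≥ t}` is essentially `(n-1)`-connected. -/
def InSigmaTop {S : Type} [Group S] (n : ℕ) (χ : S →* Multiplicative ℝ) : Prop :=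
  ∀ (V : Type) [MulAction S V] (K : Set (Finset V)) (h : (V → ℝ) → ℝ),
    FreeCx S V K → Nonempty V → (∀ k, k < n → Fills k (Rz K) (Rz K)) →
    ContinuousOn h (Rz K) →
    (∀ (s : S), ∀ x ∈ Rz K, h (tr s x) = h x + Multiplicative.toAdd (χ s)) →
    ∃ D : ℝ, ∀ t : ℝ, ∀ k, k < n → Fills k (Rz (sup K h t)) (Rz (sup K h (t - D)))

end Pool.Agent.Lib.MP_b1a3a4_al.MVS.TH
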