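import Pool.Agent.Lib.MP_b1a3a4_al.MVS.TH.Core4
import Pool.Agent.Lib.MP_b1a3a4_al.MVS.HO.Core2

/-!
# Project MVS, part V: working definitions

Cubes, labels of cubes, cubical chains, grids, classes of maps, the geometric hypotheses.
-/

set_option linter.all false

namespace Pool.Agent.Lib.MP_b1a3a4_al.MVS.TH

open Finsupp

/-! ## Cubes -/

/-- the cube `I^q` -/
abbrev Cu (q : ℕ) : Type := Fin q → unitInterval

/-- the end points of the unit interval -/
def ev (ε : Bool) : unitInterval := if ε then 1 else 0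

@[simp] lemma ev_true : ev true = 1 := rfl
@[simp] lemma ev_false : ev false = 0 := rfl

/-- inserting a coordinate -/
def ins {α : Type} {q : ℕ} (i : Fin (q + 1)) (a : α) (x : Fin q → α) : Fin (q + 1) → α :=
  Fin.insertNth (α := fun _ => α) i a x

/-- removing a coordinate -/
def rem {α : Type} {q : ℕ} (i : Fin (q + 1)) (x : Fin (q + 1) → α) : Fin q → α :=
  fun j => x (i.succAbove j)

section ins

variable {α β : Type} {q : ℕ}

@[simp] lemma ins_same (i : Fin (q + 1)) (a : α) (x : Fin q → α) : ins i a x i = a := by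
  simp [ins]

@[simp] lemma ins_succAbove (i : Fin (q + 1)) (a : α) (x : Fin q → α) (j : Fin q) :
    ins i a x (i.succAbove j) = x j := by
  simp [ins]

@[simp] lemma rem_apply (i : Fin (q + 1)) (x : Fin (q + 1) → α) (j : Fin q) :
    rem i x j = x (i.succAbove j) := rfl

@[simp] lemma rem_ins (i : Fin (q + 1)) (a : α) (x : Fin q → α) : rem i (ins i a x) = x := by
  funext j; simp

lemma ins_rem (i : Fin (q + 1)) (x : Fin (q + 1) → α) : ins i (x i) (rem i x) = x := by
  funext j
  rcases Fin.eq_self_or_eq_succAbove i j with rfl | ⟨k, rfl⟩ <;> simp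

lemma ins_eq_iff (i : Fin (q + 1)) (a : α) (x : Fin q → α) (y : Fin (q + 1) → α) :
    ins i a x = y ↔ a = y i ∧ x = rem i y := by
  constructor
  · rintro rfl; simp
  · rintro ⟨rfl, rfl⟩; exact ins_rem i y

lemma ins_inj (i : Fin (q + 1)) {a b : α} {x y : Fin q → α} (h : ins i a x = ins i b y) :
    a = b ∧ x = y := by
  have h1 := (ins_eq_iff i a x _).1 h
  simpa using h1

lemma ins_map (f : α → β) (i : Fin (q + 1)) (a : α) (x : Fin q → α) :
    (fun j => f (ins i a x j)) = ins i (f a) (fun j => f (x j)) := by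
  funext j
  rcases Fin.eq_self_or_eq_succAbove i j with rfl | ⟨k, rfl⟩ <;> simp

/-- (C1): the order of two insertions can be exchanged -/
lemma ins_ins (i : Fin (q + 2)) (j : Fin (q + 1)) (a b : α) (x : Fin q → α) :
    ins i a (ins j b x) = ins (i.succAbove j) b (ins (j.predAbove i) a x) := by
  rw [ins_eq_iff]
  constructor
  · have h := ins_succAbove (i.succAbove j) b (ins (j.predAbove i) a x) (j.predAbove i)
    rw [Fin.succAbove_succAbove_predAbove] at h
    rw [h, ins_same]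
  · rw [ins_eq_iff]
    constructor
    · simp
    · funext k
      simp only [rem_apply]
      rw [← Fin.succAbove_succAbove_succAbove_predAbove i j k]
      simp

/-- (C2): the order of two removals can be exchanged -/
lemma rem_rem (i : Fin (q + 2)) (j : Fin (q + 1)) (x : Fin (q + 2) → α) :
    rem j (rem i x) = rem (j.predAbove i) (rem (i.succAbove j) x) := by
  funext k
  simp [Fin.succAbove_succAbove_succAbove_predAbove i j k]

/-- (C3): removal and insertion at different places commute -/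
lemma rem_ins_ne (i : Fin (q + 2)) (j : Fin (q + 1)) (b : α) (y : Fin (q + 1) → α) :
    rem i (ins (i.succAbove j) b y) = ins j b (rem (j.predAbove i) y) := by
  symm
  rw [ins_eq_iff]
  constructor
  · simp
  · rw [rem_rem, rem_ins]

lemma ins_update (i : Fin (q + 1)) (a b : α) (x : Fin q → α) :
    Function.update (ins i a x) i b = ins i b x := by
  symm
  rw [ins_eq_iff]
  constructor
  · simp
  · funext j; simp [Fin.succAbove_ne]

lemma ins_update_ne (i : Fin (q + 1)) (j : Fin q) (a b : α) (x : Fin q → α) :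
    Function.update (ins i a x) (i.succAbove j) b = ins i a (Function.update x j b) := by
  symm
  rw [ins_eq_iff]
  constructor
  · simp [(Fin.succAbove_ne i j).symm]
  · funext k
    by_cases h : k = j
    · subst h; simp
    · have : i.succAbove k ≠ i.succAbove j := fun h' => h (Fin.succAbove_right_injective h')
      simp [h, this]

end ins

/-- the face map of the cube: insertion of the coordinate `ε` at the place `i` -/
def fi {q : ℕ} (i : Fin (q + 1)) (ε : Bool) (x : Cu q) : Cu (q + 1) := ins i (ev ε) x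

lemma continuous_ins {q : ℕ} (i : Fin (q + 1)) (a : unitInterval) :
    Continuous (fun x : Cu q => ins i a x) := by
  refine continuous_pi (fun j => ?_)
  rcases Fin.eq_self_or_eq_succAbove i j with rfl | ⟨k, rfl⟩
  · simpa using continuous_const
  · simpa using continuous_apply k

lemma continuous_fi {q : ℕ} (i : Fin (q + 1)) (ε : Bool) :
    Continuous (fi i ε : Cu q → Cu (q + 1)) := continuous_ins i _

lemma continuous_rem {q : ℕ} (i : Fin (q + 1)) :
    Continuous (rem i : Cu (q + 1) → Cu q) :=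
  continuous_pi (fun j => continuous_apply _)

lemma fi_mem_boundary {q : ℕ} (i : Fin (q + 1)) (ε : Bool) (x : Cu q) :
    fi i ε x ∈ Cube.boundary (Fin (q + 1)) := by
  refine ⟨i, ?_⟩
  cases ε <;> simp [fi]

lemma mem_boundary_iff {q : ℕ} (x : Cu (q + 1)) :
    x ∈ Cube.boundary (Fin (q + 1)) ↔ ∃ i ε y, x = fi i ε y := by
  constructor
  · rintro ⟨i, h | h⟩
    · refine ⟨i, false, rem i x, ?_⟩
      rw [fi, ev_false, ← h, ins_rem]
    · refine ⟨i, true, rem i x, ?_⟩
      rw [fi, ev_true, ← h, ins_rem]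
  · rintro ⟨i, ε, y, rfl⟩
    exact fi_mem_boundary i ε y

/-- A compatible family of maps on the faces of the cube `I^{q+1}`. -/
def Compat {q : ℕ} {W : Type} (a : Fin (q + 1) → Bool → Cu q → W) : Prop :=
  ∀ i ε x j δ y, fi i ε x = fi j δ y → a i ε x = a j δ y

/-- `f` extends from the boundary to a continuous map of the cube to `B`. -/
def ExtIn {Z : Type} [TopologicalSpace Z] {q : ℕ} (f : Cu q → Z) (B : Set Z) : Prop :=
  ∃ g : Cu q → Z, Continuous g ∧ (∀ x, g x ∈ B) ∧ ∀ x ∈ Cube.boundary (Fin q), g x = f x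

/-- `f` is defined and continuous on the boundary, with values in `A`. -/
def BdIn {Z : Type} [TopologicalSpace Z] {q : ℕ} (f : Cu q → Z) (A : Set Z) : Prop :=
  ContinuousOn f (Cube.boundary (Fin q)) ∧ ∀ x ∈ Cube.boundary (Fin q), f x ∈ A

lemma fills_iff {Z : Type} [TopologicalSpace Z] (k : ℕ) (A B : Set Z) :
    Fills k A B ↔ ∀ f : Cu (k + 1) → Z, BdIn f A → ExtIn f B :=
  ⟨fun h f hf => h f hf.1 hf.2, fun h f h1 h2 => h f ⟨h1, h2⟩⟩

/-! ## Labels -/

/-- labels of the corners of a cube -/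
abbrev Lab (V : Type) (q : ℕ) : Type := (Fin q → Bool) → V

/-- faces of labels -/
def fc {V : Type} {q : ℕ} (i : Fin (q + 1)) (ε : Bool) (c : Lab V (q + 1)) : Lab V q :=
  fun b => c (ins i ε b)

/-- degenerate labels -/
def dg {V : Type} {q : ℕ} (i : Fin (q + 1)) (c : Lab V q) : Lab V (q + 1) :=
  fun b => c (rem i b)

/-- `c` is degenerate -/
def IsDeg {V : Type} : ∀ {q : ℕ}, Lab V q → Prop
  | 0, _ => False
  | q + 1, c => ∃ (i : Fin (q + 1)) (c' : Lab V q), c = dg i c'

lemma isDeg_succ {V : Type} {q : ℕ} (c : Lab V (q + 1)) :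
    IsDeg c ↔ ∃ (i : Fin (q + 1)) (c' : Lab V q), c = dg i c' := Iff.rfl

lemma isDeg_dg {V : Type} {q : ℕ} (i : Fin (q + 1)) (c : Lab V q) : IsDeg (dg i c) :=
  ⟨i, c, rfl⟩

section labels

variable {V : Type} {q : ℕ}

lemma fc_fc (i : Fin (q + 2)) (j : Fin (q + 1)) (ε δ : Bool) (c : Lab V (q + 2)) :
    fc j δ (fc i ε c) = fc (j.predAbove i) ε (fc (i.succAbove j) δ c) := by
  funext b
  simp only [fc]
  rw [ins_ins]

@[simp] lemma fc_dg (i : Fin (q + 1)) (ε : Bool) (c : Lab V q) : fc i ε (dg i c) = c := by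
  funext b; simp [fc, dg]

lemma fc_dg_ne (i : Fin (q + 2)) (j : Fin (q + 1)) (δ : Bool) (c : Lab V (q + 1)) :
    fc (i.succAbove j) δ (dg i c) = dg (j.predAbove i) (fc j δ c) := by
  funext b
  simp only [fc, dg]
  rw [rem_ins_ne]

lemma dg_dg (i : Fin (q + 2)) (j : Fin (q + 1)) (c : Lab V q) :
    dg i (dg j c) = dg (i.succAbove j) (dg (j.predAbove i) c) := by
  funext b
  simp only [dg]
  rw [rem_rem]

end labels

/-- The free abelian group on the labelled cubes. -/
abbrev Chn (V : Type) (q : ℕ) : Type := Lab V q →₀ ℤ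

/-- The boundary of a chain of labelled cubes. -/
noncomputable def dK {V : Type} {q : ℕ} : Chn V (q + 1) →ₗ[ℤ] Chn V q :=
  Finsupp.linearCombination ℤ (fun c : Lab V (q + 1) =>
    ∑ i : Fin (q + 1), ((-1 : ℤ) ^ (i : ℕ)) •
      (Finsupp.single (fc i true c) 1 - Finsupp.single (fc i false c) 1))

lemma dK_single {V : Type} {q : ℕ} (c : Lab V (q + 1)) :
    dK (Finsupp.single c 1) = ∑ i : Fin (q + 1), ((-1 : ℤ) ^ (i : ℕ)) •
      (Finsupp.single (fc i true c) 1 - Finsupp.single (fc i false c) 1) := by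
  simp [dK]

/-- All cubes of the chain satisfy `P`. -/
def SuppIn {V : Type} {q : ℕ} (P : Lab V q → Prop) (z : Chn V q) : Prop :=
  ∀ c ∈ z.support, P c

/-- The chain induced by a map of labels. -/
noncomputable def pushL {V V' : Type} {q : ℕ} (f : V → V') : Chn V q →ₗ[ℤ] Chn V' q :=
  Finsupp.linearCombination ℤ (fun c : Lab V q => Finsupp.single (fun b => f (c b)) 1)

/-- The prism over `c`: the cube with the new direction `0` from `f ∘ c` to `g ∘ c`. -/
def prm {V V' : Type} {q : ℕ} (f g : V → V') (c : Lab V q) : Lab V' (q + 1) :=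
  fun b => if b 0 then g (c (rem 0 b)) else f (c (rem 0 b))

/-- The prism over a chain. -/
noncomputable def prL {V V' : Type} {q : ℕ} (f g : V → V') : Chn V q →ₗ[ℤ] Chn V' (q + 1) :=
  Finsupp.linearCombination ℤ (fun c : Lab V q => Finsupp.single (prm f g c) 1)

@[simp] lemma pushL_single {V V' : Type} {q : ℕ} (f : V → V') (c : Lab V q) (m : ℤ) :
    pushL f (Finsupp.single c m) = Finsupp.single (fun b => f (c b)) m := by
  simp [pushL]

@[simp] lemma prL_single {V V' : Type} {q : ℕ} (f g : V → V') (c : Lab V q) (m : ℤ) :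
    prL f g (Finsupp.single c m) = Finsupp.single (prm f g c) m := by
  simp [prL]

lemma suppIn_zero {V : Type} {q : ℕ} (P : Lab V q → Prop) : SuppIn P (0 : Chn V q) := by
  intro c hc; simp at hc

lemma SuppIn.add {V : Type} {q : ℕ} {P : Lab V q → Prop} {z w : Chn V q} (hz : SuppIn P z)
    (hw : SuppIn P w) : SuppIn P (z + w) := by
  classical
  intro c hc
  rcases Finset.mem_union.1 (Finsupp.support_add hc) with h | h
  · exact hz c h
  · exact hw c h

lemma SuppIn.neg {V : Type} {q : ℕ} {P : Lab V q → Prop} {z : Chn V q} (hz : SuppIn P z) :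
    SuppIn P (-z) := by
  intro c hc
  rw [Finsupp.support_neg] at hc
  exact hz c hc

lemma SuppIn.sub {V : Type} {q : ℕ} {P : Lab V q → Prop} {z w : Chn V q} (hz : SuppIn P z)
    (hw : SuppIn P w) : SuppIn P (z - w) := by
  rw [sub_eq_add_neg]; exact hz.add hw.neg

lemma SuppIn.smul {V : Type} {q : ℕ} {P : Lab V q → Prop} {z : Chn V q} (hz : SuppIn P z)
    (m : ℤ) : SuppIn P (m • z) := by
  intro c hc
  exact hz c (Finsupp.support_smul hc)

lemma SuppIn.sum {V ι : Type} {q : ℕ} {P : Lab V q → Prop} (s : Finset ι) {f : ι → Chn V q}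
    (hf : ∀ i ∈ s, SuppIn P (f i)) : SuppIn P (∑ i ∈ s, f i) := by
  classical
  induction s using Finset.induction_on with
  | empty => simpa using suppIn_zero P
  | insert a s ha ih =>
    rw [Finset.sum_insert ha]
    exact (hf a (Finset.mem_insert_self a s)).add
      (ih (fun i hi => hf i (Finset.mem_insert_of_mem hi)))

lemma suppIn_single {V : Type} {q : ℕ} {P : Lab V q → Prop} {c : Lab V q} (hc : P c) (m : ℤ) :
    SuppIn P (Finsupp.single c m) := by
  classical
  intro c' hc'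
  have := Finset.mem_singleton.1 (Finsupp.support_single_subset hc')
  rwa [this]

/-- A linear map which maps the cubes with `P` to chains in `Q` maps chains in `P` to chains in
`Q`. -/
lemma SuppIn.map {V V' : Type} {q q' : ℕ} {P : Lab V q → Prop} {Q : Lab V' q' → Prop}
    {z : Chn V q} (hz : SuppIn P z) (f : Chn V q →ₗ[ℤ] Chn V' q')
    (hf : ∀ c, P c → SuppIn Q (f (Finsupp.single c 1))) : SuppIn Q (f z) := by
  classical
  have h1 : f z = ∑ c ∈ z.support, z c • f (Finsupp.single c 1) := by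
    conv_lhs => rw [← Finsupp.sum_single z, Finsupp.sum, map_sum]
    refine Finset.sum_congr rfl (fun c _ => ?_)
    rw [← map_smul, Finsupp.smul_single, smul_eq_mul, mul_one]
  rw [h1]
  exact SuppIn.sum _ (fun c hc => (hf c (hz c hc)).smul _)

/-! ## Bounded cubes and heights -/

/-- The set of labels. -/
structure LabS (S V : Type) [Group S] [MulAction S V] (χ : S →* Multiplicative ℝ) (h : V → ℝ)
    (lam : V → S) : Prop where
  smul : ∀ s v, lam (s • v) = s * lam v
  fib : {v | lam v = 1}.Finite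
  ne : Nonempty V
  ht : ∀ s v, h (s • v) = h v + Multiplicative.toAdd (χ s)

/-- `c` is `B`-bounded. -/
def Bd {S V : Type} [Group S] (lam : V → S) (B : Set S) {q : ℕ} (c : Lab V q) : Prop :=
  ∀ x y, (lam (c x))⁻¹ * lam (c y) ∈ B

/-- All labels have height `≥ t`. -/
def Up {V : Type} (h : V → ℝ) (t : ℝ) {q : ℕ} (c : Lab V q) : Prop := ∀ x, t ≤ h (c x)

lemma bd_fc {S V : Type} [Group S] {lam : V → S} {B : Set S} {q : ℕ} {c : Lab V (q + 1)}
    (h : Bd lam B c) (i : Fin (q + 1)) (ε : Bool) : Bd lam B (fc i ε c) :=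
  fun _ _ => h _ _

lemma bd_dg {S V : Type} [Group S] {lam : V → S} {B : Set S} {q : ℕ} {c : Lab V q}
    (h : Bd lam B c) (i : Fin (q + 1)) : Bd lam B (dg i c) :=
  fun _ _ => h _ _

lemma bd_mono {S V : Type} [Group S] {lam : V → S} {B B' : Set S} (hB : B ⊆ B') {q : ℕ}
    {c : Lab V q} (h : Bd lam B c) : Bd lam B' c := fun _ _ => hB (h _ _)

lemma up_fc {V : Type} {h : V → ℝ} {t : ℝ} {q : ℕ} {c : Lab V (q + 1)}
    (hc : Up h t c) (i : Fin (q + 1)) (ε : Bool) : Up h t (fc i ε c) := fun _ => hc _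

lemma up_dg {V : Type} {h : V → ℝ} {t : ℝ} {q : ℕ} {c : Lab V q}
    (hc : Up h t c) (i : Fin (q + 1)) : Up h t (dg i c) := fun _ => hc _

lemma up_mono {V : Type} {h : V → ℝ} {t t' : ℝ} (ht : t' ≤ t) {q : ℕ} {c : Lab V q}
    (hc : Up h t c) : Up h t' c := fun x => ht.trans (hc x)

/-! ## Grids -/

/-- The labels of the small cube `p` of a labelled grid. -/
def lab {V : Type} {q : ℕ} (G : (Fin q → ℕ) → V) (p : Fin q → ℕ) : Lab V q :=
  fun b => G (fun i => p i + (b i).toNat)

/-- The face `(i, ε)` of a labelled grid with `N` cubes in each direction. -/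
def gf {V : Type} {q : ℕ} (i : Fin (q + 1)) (ε : Bool) (N : ℕ) (G : (Fin (q + 1) → ℕ) → V) :
    (Fin q → ℕ) → V := fun p => G (ins i (if ε then N else 0) p)

/-- The small cube `p` of the grid with `2^m` cubes in each direction. -/
noncomputable def sc {q : ℕ} (m : ℕ) (p : Fin q → ℕ) (x : Cu q) : Cu q :=
  fun i => Set.projIcc 0 1 zero_le_one (((p i : ℝ) + x i) / 2 ^ m)

lemma sc_val {q : ℕ} (m : ℕ) (p : Fin q → ℕ) (x : Cu q) (i : Fin q) (hp : p i < 2 ^ m) :
    (sc m p x i : ℝ) = ((p i : ℝ) + x i) / 2 ^ m := by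
  have h1 : (0 : ℝ) ≤ ((p i : ℝ) + x i) / 2 ^ m := by
    have := (x i).2.1
    positivity
  have h2 : ((p i : ℝ) + x i) / 2 ^ m ≤ 1 := by
    rw [div_le_one (by positivity)]
    have h3 : ((p i : ℝ) + 1) ≤ 2 ^ m := by exact_mod_cast hp
    have := (x i).2.2
    linarith
  rw [sc, Set.projIcc_of_mem zero_le_one ⟨h1, h2⟩]

lemma continuous_sc {q : ℕ} (m : ℕ) (p : Fin q → ℕ) : Continuous (sc m p) := by
  unfold sc
  fun_prop

/-- Every point lies in a small cube. -/
lemma sc_cover {q : ℕ} (m : ℕ) (x : Cu q) :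
    ∃ p : Fin q → ℕ, (∀ i, p i < 2 ^ m) ∧ ∃ y, x = sc m p y := by
  have key : ∀ i, ∃ p : ℕ, p < 2 ^ m ∧ ∃ y : unitInterval, (x i : ℝ) = ((p : ℝ) + y) / 2 ^ m := by
    intro i
    have hN : (0 : ℝ) < 2 ^ m := by positivity
    by_cases h1 : (x i : ℝ) = 1
    · have : (1 : ℕ) ≤ 2 ^ m := Nat.one_le_two_pow
      refine ⟨2 ^ m - 1, by omega, 1, ?_⟩
      rw [h1]
      push_cast [Nat.cast_sub this]
      field_simp
      simp
    · have h2 : (x i : ℝ) < 1 := lt_of_le_of_ne (x i).2.2 h1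
      have h0 : 0 ≤ (x i : ℝ) * 2 ^ m := mul_nonneg (x i).2.1 hN.le
      refine ⟨⌊(x i : ℝ) * 2 ^ m⌋₊, ?_, ⟨(x i : ℝ) * 2 ^ m - ⌊(x i : ℝ) * 2 ^ m⌋₊, ?_, ?_⟩, ?_⟩
      · rw [Nat.floor_lt h0]
        push_cast
        nlinarith
      · have := Nat.floor_le h0
        linarith
      · have := Nat.lt_floor_add_one ((x i : ℝ) * 2 ^ m)
        linarith
      · simp only []
        field_simp
        ring
  choose p hp y hy using key
  refine ⟨p, hp, y, ?_⟩
  funext i
  apply Subtype.ext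
  rw [sc_val m p y i (hp i), hy i]

/-- `f` is the map on the grid given by the labels `G` and the maps `Ψ`. -/
def Rlz {V W : Type} {q : ℕ} (m : ℕ) (G : (Fin q → ℕ) → V) (Ψ : Lab V q → Cu q → W)
    (f : Cu q → W) : Prop :=
  ∀ p : Fin q → ℕ, (∀ i, p i < 2 ^ m) → ∀ x, f (sc m p x) = Ψ (lab G p) x

/-- The same for a map on the boundary of the cube. -/
def BRlz {V W : Type} {q : ℕ} (m : ℕ) (G : (Fin (q + 1) → ℕ) → V) (Ψ : Lab V q → Cu q → W)
    (f : Cu (q + 1) → W) : Prop :=
  ∀ i ε, Rlz m (gf i ε (2 ^ m) G) Ψ (fun x => f (fi i ε x))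

/-- All small cubes in the boundary of the grid satisfy `P`. -/
def BLab {V : Type} {q : ℕ} (m : ℕ) (G : (Fin (q + 1) → ℕ) → V) (P : Lab V q → Prop) : Prop :=
  ∀ i ε (p : Fin q → ℕ), (∀ j, p j < 2 ^ m) → P (lab (gf i ε (2 ^ m) G) p)

/-- The chain of the boundary of a labelled grid. -/
noncomputable def bch {V : Type} {q : ℕ} (N : ℕ) (G : (Fin (q + 1) → ℕ) → V) : Chn V q :=
  ∑ i : Fin (q + 1), ((-1 : ℤ) ^ (i : ℕ)) •
    (∑ p : Fin q → Fin N, Finsupp.single (lab (gf i true N G) (fun j => (p j : ℕ))) 1 -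
      ∑ p : Fin q → Fin N, Finsupp.single (lab (gf i false N G) (fun j => (p j : ℕ))) 1)

/-! ## Classes of maps -/

/-- `a` maps the cube to `B` and its boundary to `y`. -/
def Good {Z : Type} [TopologicalSpace Z] (B : Set Z) (y : Z) {q : ℕ} (a : Cu q → Z) : Prop :=
  Continuous a ∧ (∀ x, a x ∈ B) ∧ ∀ x ∈ Cube.boundary (Fin q), a x = y

/-- `F` maps the cube to `B` and all points with at least two coordinates in `{0,1}` to `y`. -/
def Gd2 {Z : Type} [TopologicalSpace Z] (B : Set Z) (y : Z) {q : ℕ} (F : Cu q → Z) : Prop :=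
  Continuous F ∧ (∀ x, F x ∈ B) ∧
    ∀ x, (∃ i j, i ≠ j ∧ (x i = 0 ∨ x i = 1) ∧ (x j = 0 ∨ x j = 1)) → F x = y

/-- Homotopy relative to the boundary. -/
def Hq {Z : Type} [TopologicalSpace Z] (B : Set Z) (y : Z) {q : ℕ} (a b : Cu q → Z) : Prop :=
  ∃ H : Cu q → C(unitInterval, Z), Continuous H ∧ (∀ x s, H x s ∈ B) ∧ (∀ x, H x 0 = a x) ∧
    (∀ x, H x 1 = b x) ∧ ∀ x ∈ Cube.boundary (Fin q), ∀ s, H x s = y

/-- The first half of the cube in direction `i`. -/
noncomputable def halfL {q : ℕ} (i : Fin q) (x : Cu q) : Cu q :=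
  Function.update x i (Set.projIcc 0 1 zero_le_one ((x i : ℝ) / 2))

/-- The second half of the cube in direction `i`. -/
noncomputable def halfR {q : ℕ} (i : Fin q) (x : Cu q) : Cu q :=
  Function.update x i (Set.projIcc 0 1 zero_le_one ((1 + (x i : ℝ)) / 2))

/-- `cl` is the class of a map in a homotopy group. -/
structure IsCl {Z : Type} [TopologicalSpace Z] (q : ℕ) (B : Set Z) (y : Z) {P : Type} [Group P]
    (cl : (Cu q → Z) → P) : Prop where
  htpy : ∀ a b, Good B y a → Good B y b → (cl a = cl b ↔ Hq B y a b)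
  const : cl (fun _ => y) = 1
  mul : ∀ a, Good B y a → ∀ i, (∀ x : Cu q, (x i : ℝ) = 1 / 2 → a x = y) →
    cl a = cl (fun x => a (halfL i x)) * cl (fun x => a (halfR i x))

/-- `cl` is the class of a map in a commutative homotopy group, written additively. -/
structure IsCla {Z : Type} [TopologicalSpace Z] (q : ℕ) (B : Set Z) (y : Z) {P : Type}
    [AddCommGroup P] (cl : (Cu q → Z) → P) : Prop where
  htpy : ∀ a b, Good B y a → Good B y b → (cl a = cl b ↔ Hq B y a b)
  const : cl (fun _ => y) = 0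
  add : ∀ a, Good B y a → ∀ i, (∀ x : Cu q, (x i : ℝ) = 1 / 2 → a x = y) →
    cl a = cl (fun x => a (halfL i x)) + cl (fun x => a (halfR i x))

/-- The alternating sum of the classes of the faces. -/
noncomputable def Sg {Z : Type} {q : ℕ} {P : Type} [AddCommGroup P] (cl : (Cu q → Z) → P)
    (F : Cu (q + 1) → Z) : P :=
  ∑ i : Fin (q + 1), ((-1 : ℤ) ^ (i : ℕ)) •
    (cl (fun x => F (fi i true x)) - cl (fun x => F (fi i false x)))

/-! ## Geometry -/

/-- essentially `k`-connected in degree `k` -/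
def EC {Z : Type} [TopologicalSpace Z] (up : ℝ → Set Z) (k : ℕ) : Prop :=
  ∃ D : ℝ, 0 ≤ D ∧ ∀ t, Fills k (up t) (up (t - D))

/-- Realization of the `B`-bounded labelled cubes of dimension `≤ n`. -/
structure BetaOK {S V Z : Type} [Group S] [TopologicalSpace Z] (n : ℕ) (up : ℝ → Set Z)
    (h : V → ℝ) (lam : V → S) (B : Set S) (D : ℝ) (β : ∀ q, Lab V q → Cu q → Z) : Prop where
  cont : ∀ q, q ≤ n → ∀ c : Lab V q, Bd lam B c → Continuous (β q c)
  up : ∀ q, q ≤ n → ∀ c : Lab V q, Bd lam B c → ∀ t, Up h t c → ∀ x, β q c x ∈ up (t - D)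
  face : ∀ q, q + 1 ≤ n → ∀ c : Lab V (q + 1), Bd lam B c → ∀ i ε x,
    β (q + 1) c (fi i ε x) = β q (fc i ε c) x
  deg : ∀ q, q + 1 ≤ n → ∀ c : Lab V q, Bd lam B c → ∀ i x,
    β (q + 1) (dg i c) x = β q c (rem i x)

/-- The geometric hypotheses on a space `Z` with a filtration `up`, in dimensions `≤ n`. -/
structure AGeo {Z : Type} [TopologicalSpace Z] (S V : Type) [Group S] [MulAction S V]
    (χ : S →* Multiplicative ℝ) (n : ℕ) (up : ℝ → Set Z) (h : V → ℝ) (lam : V → S) : Prop where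
  labs : LabS S V χ h lam
  anti : ∀ s t, s ≤ t → up t ⊆ up s
  appr : ∃ (B₀ : Set S) (D₀ : ℝ), B₀.Finite ∧ 0 ≤ D₀ ∧ ∀ B₁ : Set S, B₁.Finite → B₀ ⊆ B₁ →
    ∃ (β : ∀ q, Lab V q → Cu q → Z) (D₁ : ℝ), D₀ ≤ D₁ ∧ BetaOK n up h lam B₁ D₁ β ∧
      ∀ t k, k < n → ∀ f : Cu (k + 1) → Z, BdIn f (up t) →
        ∃ (m : ℕ) (G : (Fin (k + 1) → ℕ) → V),
          BLab m G (fun c => Bd lam B₀ c ∧ Up h (t - D₀) c) ∧
          ∀ D', D₁ ≤ D' → ∀ R : Cu (k + 1) → Z, ContinuousOn R (Cube.boundary (Fin (k + 1))) →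
            BRlz m G (β k) R → ExtIn R (up (t - D')) → ExtIn f (up (t - D'))

/-! ## The simplicial case -/

/-- The subcomplex of the simplices with all vertices of height `≥ t`. -/
def kt {V : Type} (K : Set (Finset V)) (h : V → ℝ) (t : ℝ) : Set (Finset V) :=
  {σ | σ ∈ K ∧ ∀ v ∈ σ, t ≤ h v}

/-- The simplicial hypotheses. -/
structure Geo (S V : Type) [Group S] [MulAction S V] (χ : S →* Multiplicative ℝ) (n : ℕ)
    (K : Set (Finset V)) (h : V → ℝ) (lam : V → S) : Prop where
  labs : LabS S V χ h lam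
  vert : ∀ v : V, {v} ∈ K
  nonempty : ∀ σ ∈ K, σ.Nonempty
  down : ∀ σ ∈ K, ∀ τ, τ ⊆ σ → τ.Nonempty → τ ∈ K
  inv : ∀ s : S, ∀ σ ∈ K, trs s σ ∈ K
  adj : ∃ B : Set S, B.Finite ∧ ∀ σ ∈ K, ∀ v ∈ σ, ∀ w ∈ σ, (lam v)⁻¹ * lam w ∈ B
  conn : ∀ k, k < n → Fills k (Rz K) (Rz K)

/-- The set of labels of a cube. -/
noncomputable def img {V : Type} {q : ℕ} (c : Lab V q) : Finset V := by
  classical exact Finset.univ.image c

lemma mem_img {V : Type} {q : ℕ} (c : Lab V q) (v : V) : v ∈ img c ↔ ∃ b, c b = v := by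
  classical simp [img]

/-- The weight of the corner `b` of the cube at the point `x`. -/
noncomputable def wt {q : ℕ} (b : Fin q → Bool) (x : Cu q) : ℝ :=
  ∏ i, if b i then (x i : ℝ) else 1 - (x i : ℝ)

/-- The multilinear map with given values in the corners of the cube. -/
noncomputable def ml {V : Type} {q : ℕ} (c : Lab V q) (x : Cu q) : V → ℝ := by
  classical exact fun v => ∑ b, if c b = v then wt b x else 0

lemma ml_apply {V : Type} [DecidableEq V] {q : ℕ} (c : Lab V q) (x : Cu q) (v : V) :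
    ml c x v = ∑ b, if c b = v then wt b x else 0 := by
  simp only [ml]
  congr!

end Pool.Agent.Lib.MP_b1a3a4_al.MVS.TH
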