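import Pool.Agent.Lib.MP_b1a3a4_al.MVS.TH.Defs
import Pool.Agent.Lib.MP_b1a3a4_al.MVS.Interfaces

/-!
# Project MVS, part V: statements of all modules

The proofs are in `Paper.md`, section 13 (numbers in the comments).
-/

set_option linter.all false

namespace Pool.Agent.Lib.MP_b1a3a4_al.MVS.TH

open Finsupp MVS MVS.HO

/-! ## A. Algebra and combinatorics -/

/-- DKDK (13.1) -/
def DkdkStatement : Prop :=
  (∀ (V : Type) (q : ℕ) (z : Chn V (q + 2)), dK (dK z) = 0) ∧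
  (∀ (V : Type) (q : ℕ) (z : Chn V (q + 1)), SuppIn IsDeg z → SuppIn IsDeg (dK z)) ∧
  (∀ (V V' : Type) (f : V → V') (q : ℕ) (z : Chn V (q + 1)),
    dK (pushL f z) = pushL f (dK z)) ∧
  (∀ (V V' : Type) (f : V → V') (q : ℕ) (z : Chn V q),
    SuppIn IsDeg z → SuppIn IsDeg (pushL f z)) ∧
  (∀ (V V' : Type) (f g : V → V') (q : ℕ) (z : Chn V q),
    SuppIn IsDeg z → SuppIn IsDeg (prL f g z)) ∧
  (∀ (V V' : Type) (f g : V → V') (z : Chn V 0),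
    dK (prL f g z) = pushL g z - pushL f z) ∧
  (∀ (V V' : Type) (f g : V → V') (q : ℕ) (z : Chn V (q + 1)),
    dK (prL f g z) = pushL g z - pushL f z - prL f g (dK z))

/-- KRES (13.2): the normalized chains of labelled cubes are a free resolution -/
def KresStatement : Prop :=
  ∀ (S : Type) [Group S], ∃ (F : GRes ℤ S) (cube : ∀ q, F.X q → Lab S q)
    (θ : ∀ q, (F.X q →₀ MonoidAlgebra ℤ S) →+ Chn S q),
    (∀ q x, ¬ IsDeg (cube q x) ∧ cube q x (fun _ => false) = 1) ∧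
    (∀ q (c : Lab S q), ¬ IsDeg c → c (fun _ => false) = 1 → ∃ x, cube q x = c) ∧
    (∀ q, Function.Injective (cube q)) ∧
    (∀ q x (g : S) (m : ℤ), θ q (Finsupp.single x (MonoidAlgebra.single g m)) =
      Finsupp.single (fun b => g * cube q x b) m) ∧
    (∀ q z, SuppIn IsDeg (dK (θ (q + 1) z) - θ q (F.d q z)))

/-- FLATP (13.3) -/
def FlatpStatement : Prop :=
  ∀ (k G : Type) [CommRing k] [Group G] (χ : Chr G), χ ≠ 0 → ∀ n : ℕ, FPn k (posMon χ) n →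
    ∃ F : GRes k G, F.Fin n ∧ ∃ C : ℝ, 0 ≤ C ∧ ∀ q, q + 1 ≤ n → ∀ (t : ℝ)
      (b : F.X (q + 1) →₀ MonoidAlgebra k G), LB χ t (F.d q b) →
      ∃ b', F.d q b' = F.d q b ∧ LB χ (t - C) b'

/-- CUBHS (13.4): filling of bounded cycles of cubes with labels in `S` -/
def CubhsStatement : Prop :=
  ∀ (S : Type) [Group S] (χ : S →* Multiplicative ℝ) (n : ℕ), χ ≠ 1 → FPn ℤ (posSub χ) n →
    ∀ q, q + 2 ≤ n → ∀ B : Set S, B.Finite → ∃ (B' : Set S) (D : ℝ), B'.Finite ∧ 0 ≤ D ∧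
      ∀ (t : ℝ) (z : Chn S (q + 1)),
        SuppIn (fun c => Bd (fun s : S => s) B c ∧
          Up (fun s : S => Multiplicative.toAdd (χ s)) t c) z → SuppIn IsDeg (dK z) →
        ∃ w : Chn S (q + 2), SuppIn (fun c => Bd (fun s : S => s) B' c ∧
          Up (fun s : S => Multiplicative.toAdd (χ s)) (t - D) c) w ∧ SuppIn IsDeg (z - dK w)

/-- CUBH (13.5): the same for cubes with labels in `V` -/
def CubhStatement : Prop :=
  ∀ (S V : Type) [Group S] [MulAction S V] (χ : S →* Multiplicative ℝ) (h : V → ℝ)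
    (lam : V → S), LabS S V χ h lam → ∀ n : ℕ, χ ≠ 1 → FPn ℤ (posSub χ) n →
    ∀ q, q + 2 ≤ n → ∀ B : Set S, B.Finite → ∃ (B' : Set S) (D : ℝ), B'.Finite ∧ 0 ≤ D ∧
      ∀ (t : ℝ) (z : Chn V (q + 1)),
        SuppIn (fun c => Bd lam B c ∧ Up h t c) z → SuppIn IsDeg (dK z) →
        ∃ w : Chn V (q + 2), SuppIn (fun c => Bd lam B' c ∧ Up h (t - D) c) w ∧
          SuppIn IsDeg (z - dK w)

/-- TELE (13.6) -/
def TeleStatement : Prop :=
  (∀ (V : Type) (q N : ℕ) (G : (Fin (q + 1) → ℕ) → V),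
    ∑ p : Fin (q + 1) → Fin N, dK (Finsupp.single (lab G (fun j => (p j : ℕ))) 1) = bch N G) ∧
  ∀ (V : Type) (q N : ℕ) (G : (Fin (q + 2) → ℕ) → V), dK (bch N G) = 0

/-- LOOPS (13.7) -/
def LoopsStatement : Prop :=
  ∀ (S V : Type) [Group S] [MulAction S V] (χ : S →* Multiplicative ℝ) (h : V → ℝ)
    (lam : V → S), LabS S V χ h lam →
    ∀ (r : ℕ) (φ : FreeGroup (Fin r) →* S) (R : Set (FreeGroup (Fin r))),
    Function.Surjective φ → R.Finite → φ.ker = Subgroup.normalClosure R → InSigma2 χ →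
    ∀ B₀ : Set S, B₀.Finite → ∃ (B₁ : Set S) (D : ℝ), B₁.Finite ∧ 0 ≤ D ∧
      ∀ (t : ℝ) (P : Type) [Group P] (ψ : V → V → P),
        (∀ u v w, t - D ≤ h u → t - D ≤ h v → t - D ≤ h w →
          (∀ x ∈ ({u, v, w} : Set V), ∀ y ∈ ({u, v, w} : Set V), (lam x)⁻¹ * lam y ∈ B₁) →
          ψ u v * ψ v w = ψ u w) →
        ∀ (M : ℕ) (f g : ℕ → V), f 0 = g 0 → f M = g M →
          (∀ j, j ≤ M → t ≤ h (f j) ∧ t ≤ h (g j)) →
          (∀ j, j < M → (lam (f j))⁻¹ * lam (f (j + 1)) ∈ B₀ ∧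
            (lam (g j))⁻¹ * lam (g (j + 1)) ∈ B₀) →
          ((List.range M).map (fun j => ψ (f j) (f (j + 1)))).prod =
            ((List.range M).map (fun j => ψ (g j) (g (j + 1)))).prod

/-! ## B. Topology of cubes -/

/-- FAM (13.8): gluing of maps on the faces -/
def FamStatement : Prop :=
  (∀ (W : Type) [TopologicalSpace W] (q : ℕ) (f : Cu (q + 1) → W),
    ContinuousOn f (Cube.boundary (Fin (q + 1))) ↔
      ∀ i ε, Continuous (fun x => f (fi i ε x))) ∧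
  ∀ (W : Type) (q : ℕ) (a : Fin (q + 1) → Bool → Cu q → W), Compat a →
    ∃ f : Cu (q + 1) → W, ∀ i ε x, f (fi i ε x) = a i ε x

/-- RETR (13.9): extension of homotopies from the boundary -/
def RetrStatement : Prop :=
  ∀ (Z : Type) [TopologicalSpace Z] (q : ℕ) (B : Set Z) (f₀ : Cu q → Z)
    (g : Cu q → C(unitInterval, Z)), Continuous f₀ → (∀ x, f₀ x ∈ B) →
    ContinuousOn g (Cube.boundary (Fin q)) →
    (∀ x ∈ Cube.boundary (Fin q), (∀ s, g x s ∈ B) ∧ g x 0 = f₀ x) →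
    ∃ F : Cu q → C(unitInterval, Z), Continuous F ∧ (∀ x s, F x s ∈ B) ∧
      (∀ x, F x 0 = f₀ x) ∧ ∀ x ∈ Cube.boundary (Fin q), F x = g x

/-- FILLI (13.10): filling of `∂(I^q × I)` -/
def FilliStatement : Prop :=
  ∀ (Z : Type) [TopologicalSpace Z] (q : ℕ) (A B : Set Z), Fills q A B →
    ∀ (f₀ f₁ : Cu q → Z) (g : Cu q → C(unitInterval, Z)), Continuous f₀ → Continuous f₁ →
    (∀ x, f₀ x ∈ A) → (∀ x, f₁ x ∈ A) → ContinuousOn g (Cube.boundary (Fin q)) →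
    (∀ x ∈ Cube.boundary (Fin q), (∀ s, g x s ∈ A) ∧ g x 0 = f₀ x ∧ g x 1 = f₁ x) →
    ∃ F : Cu q → C(unitInterval, Z), Continuous F ∧ (∀ x s, F x s ∈ B) ∧
      (∀ x, F x 0 = f₀ x) ∧ (∀ x, F x 1 = f₁ x) ∧ ∀ x ∈ Cube.boundary (Fin q), F x = g x

/-- RECD (13.11): recursive construction of maps on labelled cubes, compatible with faces and
degeneracies -/
def RecdStatement : Prop :=
  ∀ (T W : Type) [Nonempty W] (C : ∀ q, Lab T q → Prop)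
    (Adm : ∀ q, Lab T q → (Cu q → W) → Prop) (N : ℕ),
    (∀ q c i ε, C (q + 1) c → C q (fc i ε c)) →
    (∀ q c i, C q c → C (q + 1) (dg i c)) →
    (∀ c, C 0 c → ∃ f, Adm 0 c f) →
    (∀ q c i f, q + 1 ≤ N → C q c → Adm q c f →
      Adm (q + 1) (dg i c) (fun x => f (rem i x))) →
    (∀ q c, q + 1 ≤ N → C (q + 1) c → ¬ IsDeg c → ∀ a : Fin (q + 1) → Bool → Cu q → W,
      (∀ i ε, Adm q (fc i ε c) (a i ε)) → Compat a →
      ∃ f, Adm (q + 1) c f ∧ ∀ i ε x, f (fi i ε x) = a i ε x) →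
    ∃ Ψ : ∀ q, Lab T q → Cu q → W,
      (∀ q, q ≤ N → ∀ c, C q c → Adm q c (Ψ q c)) ∧
      (∀ q, q + 1 ≤ N → ∀ c, C (q + 1) c → ∀ i ε x, Ψ (q + 1) c (fi i ε x) = Ψ q (fc i ε c) x) ∧
      (∀ q, q + 1 ≤ N → ∀ c, C q c → ∀ i x, Ψ (q + 1) (dg i c) x = Ψ q c (rem i x))

/-- REAL (13.12): gluing of maps on the small cubes of the boundary of a grid -/
def RealStatement : Prop :=
  ∀ (V W : Type) [TopologicalSpace W] (P : ∀ q, Lab V q → Prop) (Ψ : ∀ q, Lab V q → Cu q → W)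
    (k : ℕ), (∀ q c i ε, P (q + 1) c → P q (fc i ε c)) →
    (∀ c, P k c → Continuous (Ψ k c)) →
    (∀ q, q + 1 ≤ k → ∀ c, P (q + 1) c → ∀ i ε x, Ψ (q + 1) c (fi i ε x) = Ψ q (fc i ε c) x) →
    ∀ (m : ℕ) (G : (Fin (k + 1) → ℕ) → V), BLab m G (P k) →
    ∃ f : Cu (k + 1) → W, ContinuousOn f (Cube.boundary (Fin (k + 1))) ∧ BRlz m G (Ψ k) f

/-- CL (13.13): homotopy groups -/
def ClStatement : Prop :=
  ∀ (Z : Type) [TopologicalSpace Z] (B : Set Z) (y : Z), y ∈ B → ∀ q : ℕ,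
    (∃ (P : Type) (_ : Group P) (cl : (Cu (q + 1) → Z) → P), IsCl (q + 1) B y cl) ∧
    ∃ (P : Type) (_ : AddCommGroup P) (cl : (Cu (q + 2) → Z) → P), IsCla (q + 2) B y cl

/-- HATBASE (13.14) -/
def HatbaseStatement : Prop :=
  ∀ (Z : Type) [TopologicalSpace Z] (B : Set Z) (y : Z) (r : ℕ) (P : Type) [Group P]
    (cl : (Cu (r + 1) → Z) → P), IsCl (r + 1) B y cl → ∀ F : Cu (r + 2) → Z, Gd2 B y F →
    (∀ i : Fin (r + 2), i ≠ 0 → i ≠ 1 → ∀ ε x, F (fi i ε x) = y) →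
    cl (fun x => F (fi 1 false x)) * cl (fun x => F (fi 0 true x)) =
      cl (fun x => F (fi 0 false x)) * cl (fun x => F (fi 1 true x))

/-- HATGLUE (13.15) -/
def HatglueStatement : Prop :=
  ∀ (Z : Type) [TopologicalSpace Z] (B : Set Z) (y : Z) (r : ℕ) (P : Type) [AddCommGroup P]
    (cl : (Cu (r + 2) → Z) → P), IsCla (r + 2) B y cl → ∀ F G : Cu (r + 3) → Z,
    Gd2 B y F → Gd2 B y G → ∀ j, (∀ x, F (fi j true x) = G (fi j false x)) →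
    ∃ H : Cu (r + 3) → Z, Gd2 B y H ∧ Sg cl H = Sg cl F + Sg cl G ∧
      (∀ x, H (fi j false x) = F (fi j false x)) ∧ (∀ x, H (fi j true x) = G (fi j true x)) ∧
      ∀ l, l ≠ j → ∀ ε, (∀ x, F (fi l ε x) = y) → (∀ x, G (fi l ε x) = y) →
        ∀ x, H (fi l ε x) = y

/-- HATROT (13.16) -/
def HatrotStatement : Prop :=
  ∀ (Z : Type) [TopologicalSpace Z] (B : Set Z) (y : Z) (r : ℕ) (P : Type) [AddCommGroup P]
    (cl : (Cu (r + 2) → Z) → P), IsCla (r + 2) B y cl → ∀ a : Cu (r + 2) → Z, Good B y a →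
    ∀ (i : Fin (r + 2)) (ε : Bool), ∃ G : Cu (r + 3) → Z, Gd2 B y G ∧ Sg cl G = 0 ∧
      (∀ x, G (fi i.succ ε x) = a x) ∧ (∀ x, G (fi i.succ (!ε) x) = y) ∧
      ∀ l, l ≠ i.succ → l ≠ i.castSucc → ∀ δ x, G (fi l δ x) = y

/-- HAT (13.17): the homotopy addition theorem -/
def HatStatement : Prop :=
  ∀ (Z : Type) [TopologicalSpace Z] (B : Set Z) (y : Z) (r : ℕ) (P : Type) [AddCommGroup P]
    (cl : (Cu (r + 2) → Z) → P), IsCla (r + 2) B y cl → ∀ F : Cu (r + 3) → Z,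
    Gd2 B y F → Sg cl F = 0

/-- HATC0 (13.18) -/
def Hatc0Statement : Prop :=
  ∀ (Z : Type) [TopologicalSpace Z] (B : Set Z) (y : Z) (r : ℕ) (f : Cu (r + 2) → Z),
    ContinuousOn f (Cube.boundary (Fin (r + 2))) →
    (∀ i ε, Good B y (fun x => f (fi i ε x))) →
    ∃ F : Cu (r + 2) → Z, Gd2 B y F ∧
      (∀ i ε, (i, ε) ≠ (0, true) → ∀ x, F (fi i ε x) = f (fi i ε x)) ∧
      (Hq B y (fun x => F (fi 0 true x)) (fun x => f (fi 0 true x)) → ExtIn f B)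

/-- HATC (13.19) -/
def HatcStatement : Prop :=
  (∀ (Z : Type) [TopologicalSpace Z] (B : Set Z) (y : Z) (r : ℕ) (P : Type) [AddCommGroup P]
    (cl : (Cu (r + 2) → Z) → P), IsCla (r + 2) B y cl → ∀ f : Cu (r + 3) → Z,
    ContinuousOn f (Cube.boundary (Fin (r + 3))) →
    (∀ i ε, Good B y (fun x => f (fi i ε x))) → Sg cl f = 0 → ExtIn f B) ∧
  ∀ (Z : Type) [TopologicalSpace Z] (B : Set Z) (y : Z) (P : Type) [Group P]
    (cl : (Cu 1 → Z) → P), IsCl 1 B y cl → ∀ f : Cu 2 → Z,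
    ContinuousOn f (Cube.boundary (Fin 2)) → (∀ i ε, Good B y (fun x => f (fi i ε x))) →
    cl (fun x => f (fi 1 false x)) * cl (fun x => f (fi 0 true x)) =
      cl (fun x => f (fi 0 false x)) * cl (fun x => f (fi 1 true x)) → ExtIn f B

/-- GRID (13.20): subdivision -/
def GridStatement : Prop :=
  ∀ (Z : Type) [TopologicalSpace Z] (B : Set Z) (y : Z) (r : ℕ) (P : Type) [AddCommGroup P]
    (cl : (Cu (r + 2) → Z) → P), IsCla (r + 2) B y cl → ∀ (a : Cu (r + 2) → Z) (m : ℕ),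
    Good B y a → (∀ x : Cu (r + 2), (∃ (i : Fin (r + 2)) (j : ℕ), (x i : ℝ) * 2 ^ m = j) →
      a x = y) →
    cl a = ∑ p : Fin (r + 2) → Fin (2 ^ m), cl (fun x => a (sc m (fun i => (p i : ℕ)) x))

/-- GRID1 (13.21) -/
def Grid1Statement : Prop :=
  ∀ (Z : Type) [TopologicalSpace Z] (B : Set Z) (y : Z) (P : Type) [Group P]
    (cl : (Cu 1 → Z) → P), IsCl 1 B y cl → ∀ (a : Cu 1 → Z) (m : ℕ), Good B y a →
    (∀ x : Cu 1, (∃ j : ℕ, (x 0 : ℝ) * 2 ^ m = j) → a x = y) →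
    cl a = ((List.range (2 ^ m)).map (fun p => cl (fun x => a (sc m (fun _ => p) x)))).prod

/-! ## C. The main argument -/

/-- DEFO (13.22): Eilenberg's deformation -/
def DefoStatement : Prop :=
  ∀ (S V Z : Type) [Group S] [TopologicalSpace Z] (n k : ℕ) (up : ℝ → Set Z) (h : V → ℝ)
    (lam : V → S) (B : Set S) (D₁ : ℝ) (β : ∀ q, Lab V q → Cu q → Z),
    0 ≤ D₁ → 1 ≤ k → k + 1 ≤ n → (∀ s t, s ≤ t → up t ⊆ up s) → BetaOK n up h lam B D₁ β →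
    (∀ j, j < k → EC up j) →
    ∃ D₂ : ℝ, D₁ ≤ D₂ ∧ ∀ t, ∀ y ∈ up t, ∃ P : ∀ q, Lab V q → Cu q → C(unitInterval, Z),
      (∀ q, q ≤ k + 1 → ∀ c : Lab V q, Bd lam B c → Up h t c → Continuous (P q c) ∧
        (∀ x s, P q c x s ∈ up (t - D₂)) ∧ (∀ x, P q c x 0 = β q c x) ∧
        (q < k → ∀ x, P q c x 1 = y)) ∧
      (∀ q, q ≤ k → ∀ c : Lab V (q + 1), Bd lam B c → Up h t c → ∀ i ε x,
        P (q + 1) c (fi i ε x) = P q (fc i ε c) x) ∧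
      ∀ q, q ≤ k → ∀ c : Lab V q, Bd lam B c → Up h t c → ∀ i x,
        P (q + 1) (dg i c) x = P q c (rem i x)

/-- the properties of the deformed maps `γ` on the cubes in `C`, in dimensions `≤ k + 1` -/
structure GamOK {V Z : Type} [TopologicalSpace Z] (k : ℕ) (B : Set Z) (y : Z)
    (C : ∀ q, Lab V q → Prop) (γ : ∀ q, Lab V q → Cu q → Z) : Prop where
  cont : ∀ q, q ≤ k + 1 → ∀ c : Lab V q, C q c → Continuous (γ q c)
  mem : ∀ q, q ≤ k + 1 → ∀ c : Lab V q, C q c → ∀ x, γ q c x ∈ B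
  base : ∀ q, q < k → ∀ c : Lab V q, C q c → ∀ x, γ q c x = y
  face : ∀ q, q ≤ k → ∀ c : Lab V (q + 1), C (q + 1) c → ∀ i ε x,
    γ (q + 1) c (fi i ε x) = γ q (fc i ε c) x
  deg : ∀ q, q ≤ k → ∀ c : Lab V q, C q c → ∀ i x, γ (q + 1) (dg i c) x = γ q c (rem i x)

/-- PRE (13.23) -/
def PreStatement : Prop :=
  ∀ (S V Z : Type) [Group S] [MulAction S V] [TopologicalSpace Z] (χ : S →* Multiplicative ℝ)
    (n k : ℕ) (up : ℝ → Set Z) (h : V → ℝ) (lam : V → S), AGeo S V χ n up h lam →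
    1 ≤ k → k + 1 ≤ n → (∀ j, j < k → EC up j) →
    ∃ (B₀ : Set S) (D₀ : ℝ), B₀.Finite ∧ 0 ≤ D₀ ∧ ∀ (B₁ : Set S) (D₁ : ℝ), B₁.Finite →
      B₀ ⊆ B₁ → D₀ ≤ D₁ → ∃ D₂ : ℝ, 0 ≤ D₂ ∧ ∀ (t : ℝ) (f : Cu (k + 1) → Z), BdIn f (up t) →
        ∃ (m : ℕ) (G : (Fin (k + 1) → ℕ) → V) (y : Z) (γ : ∀ q, Lab V q → Cu q → Z)
          (R : Cu (k + 1) → Z),
          BLab m G (fun c => Bd lam B₀ c ∧ Up h (t - D₀) c) ∧ y ∈ up (t - D₂) ∧
          GamOK k (up (t - D₂)) y (fun q c => Bd lam B₁ c ∧ Up h (t - D₁) c) γ ∧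
          BdIn R (up (t - D₂)) ∧ BRlz m G (γ k) R ∧
          (ExtIn R (up (t - D₂)) → ExtIn f (up (t - D₂)))

/-- EC0 (13.24) -/
def Ec0Statement : Prop :=
  ∀ (S V Z : Type) [Group S] [MulAction S V] [TopologicalSpace Z] (χ : S →* Multiplicative ℝ)
    (n : ℕ) (up : ℝ → Set Z) (h : V → ℝ) (lam : V → S), AGeo S V χ n up h lam → 1 ≤ n →
    ∀ (r : ℕ) (φ : FreeGroup (Fin r) →* S) (R : Set (FreeGroup (Fin r))),
    Function.Surjective φ → R.Finite → φ.ker = Subgroup.normalClosure R → InSigma2 χ →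
    EC up 0

/-- EC1 (13.25) -/
def Ec1Statement : Prop :=
  ∀ (S V Z : Type) [Group S] [MulAction S V] [TopologicalSpace Z] (χ : S →* Multiplicative ℝ)
    (n : ℕ) (up : ℝ → Set Z) (h : V → ℝ) (lam : V → S), AGeo S V χ n up h lam → 2 ≤ n →
    ∀ (r : ℕ) (φ : FreeGroup (Fin r) →* S) (R : Set (FreeGroup (Fin r))),
    Function.Surjective φ → R.Finite → φ.ker = Subgroup.normalClosure R → InSigma2 χ →
    EC up 0 → EC up 1

/-- HUR (13.26) -/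
def HurStatement : Prop :=
  ∀ (S V Z : Type) [Group S] [MulAction S V] [TopologicalSpace Z] (χ : S →* Multiplicative ℝ)
    (n : ℕ) (up : ℝ → Set Z) (h : V → ℝ) (lam : V → S), AGeo S V χ n up h lam →
    χ ≠ 1 → FPn ℤ (posSub χ) n → ∀ k, 2 ≤ k → k + 1 ≤ n → (∀ j, j < k → EC up j) → EC up k

/-- MAIN (13.27) -/
def MainStatement : Prop :=
  ∀ (S V Z : Type) [Group S] [MulAction S V] [TopologicalSpace Z] (χ : S →* Multiplicative ℝ)
    (n : ℕ) (up : ℝ → Set Z) (h : V → ℝ) (lam : V → S), AGeo S V χ n up h lam →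
    χ ≠ 1 → FPn ℤ (posSub χ) n → Group.IsFinitelyPresented S → InSigma2 χ →
    ∀ k, k < n → EC up k

/-! ## D. Simplicial complexes -/

/-- ML (13.28): multilinear maps -/
def MlStatement : Prop :=
  (∀ (V : Type) (q : ℕ) (c : Lab V q), Continuous (ml c)) ∧
  (∀ (V : Type) (q : ℕ) (c : Lab V (q + 1)) (i : Fin (q + 1)) (ε : Bool) (x : Cu q),
    ml c (fi i ε x) = ml (fc i ε c) x) ∧
  (∀ (V : Type) (q : ℕ) (c : Lab V q) (i : Fin (q + 1)) (x : Cu (q + 1)),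
    ml (dg i c) x = ml c (rem i x)) ∧
  (∀ (V : Type) (q : ℕ) (c : Lab V q) (x : Cu q) (v : V), 0 ≤ ml c x v) ∧
  (∀ (V : Type) (q : ℕ) (c : Lab V q) (x : Cu q), ∑ v ∈ img c, ml c x v = 1) ∧
  (∀ (V : Type) (q : ℕ) (c : Lab V q) (x : Cu q) (v : V), ml c x v ≠ 0 →
    ∃ b, c b = v ∧ ∀ i, if b i then (x i : ℝ) ≠ 0 else (x i : ℝ) ≠ 1) ∧
  (∀ (V : Type) (K : Set (Finset V)) (h : V → ℝ) (t : ℝ) (q : ℕ) (c : Lab V q) (x : Cu q),
    img c ∈ K → Up h t c → ml c x ∈ Rz (kt K h t))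

/-- COMPACT (13.29) -/
def CompactStatement : Prop :=
  ∀ (S V : Type) [Group S] [MulAction S V] (χ : S →* Multiplicative ℝ) (n : ℕ)
    (K : Set (Finset V)) (h : V → ℝ) (lam : V → S), Geo S V χ n K h lam →
    ∀ (q : ℕ) (f : Cu q → V → ℝ), Continuous f → (∀ x, f x ∈ Rz K) →
    ∃ D : ℝ, ∀ x, f x ∈ Rz (kt K h (-D))

/-- BETA (13.30) -/
def BetaStatement : Prop :=
  ∀ (S V : Type) [Group S] [MulAction S V] (χ : S →* Multiplicative ℝ) (n : ℕ)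
    (K : Set (Finset V)) (h : V → ℝ) (lam : V → S), Geo S V χ n K h lam →
    ∀ B : Set S, B.Finite → ∃ (β : ∀ q, Lab V q → Cu q → V → ℝ) (D : ℝ), 0 ≤ D ∧
      BetaOK n (fun t => Rz (kt K h t)) h lam B D β ∧
      ∀ q, q ≤ n → ∀ c : Lab V q, Bd lam B c → img c ∈ K → β q c = ml c

/-- SMALL (13.31): simplicial approximation -/
def SmallStatement : Prop :=
  ∀ (V : Type) (K : Set (Finset V)), (∀ σ ∈ K, ∀ τ, τ ⊆ σ → τ.Nonempty → τ ∈ K) →
    ∀ (k : ℕ) (f : Cu (k + 1) → V → ℝ), BdIn f (Rz K) →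
    ∃ (m : ℕ) (G : (Fin (k + 1) → ℕ) → V), BLab m G (fun c => img c ∈ K) ∧
      ∀ R : Cu (k + 1) → V → ℝ, ContinuousOn R (Cube.boundary (Fin (k + 1))) →
        BRlz m G (fun c => ml c) R →
        ∃ H : Cu (k + 1) → C(unitInterval, V → ℝ),
          ContinuousOn H (Cube.boundary (Fin (k + 1))) ∧
          ∀ x ∈ Cube.boundary (Fin (k + 1)), (∀ s, H x s ∈ Rz K) ∧ H x 0 = R x ∧ H x 1 = f x

/-- AGEO (13.32) -/
def AgeoStatement : Prop :=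
  ∀ (S V : Type) [Group S] [MulAction S V] (χ : S →* Multiplicative ℝ) (n : ℕ)
    (K : Set (Finset V)) (h : V → ℝ) (lam : V → S), Geo S V χ n K h lam →
    AGeo S V χ n (fun t => Rz (kt K h t)) h lam

/-- GEO (13.33) -/
def GeoStatement : Prop :=
  ∀ (S V : Type) [Group S] [MulAction S V] (χ : S →* Multiplicative ℝ) (n : ℕ)
    (K : Set (Finset V)) (h : (V → ℝ) → ℝ), FreeCx S V K → Nonempty V →
    (∀ k, k < n → Fills k (Rz K) (Rz K)) → ContinuousOn h (Rz K) →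
    (∀ (s : S), ∀ x ∈ Rz K, h (tr s x) = h x + Multiplicative.toAdd (χ s)) →
    ∃ (h' : V → ℝ) (lam : V → S) (C : ℝ), Geo S V χ n K h' lam ∧
      (∀ t, sup K h t ⊆ kt K h' t) ∧ ∀ t, kt K h' (t + C) ⊆ sup K h t

/-- FINAL (13.34) -/
def FinalThStatement : Prop :=
  ∀ (S : Type) [Group S] (χ : S →* Multiplicative ℝ) (n : ℕ), χ ≠ 1 → FPn ℤ (posSub χ) n →
    Group.IsFinitelyPresented S → InSigma2 χ → InSigmaTop n χ

end Pool.Agent.Lib.MP_b1a3a4_al.MVS.TH
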