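import Pool.Agent.Lib.MP_b1a3a4_al.MVS.LG.Main
import Pool.Agent.Lib.MP_b1a3a4_al.MVS.TH.H21.Fam
import Pool.Agent.Lib.MP_b1a3a4_al.MVS.TH.H21.Grid1
import Pool.Agent.Lib.MP_b1a3a4_al.MVS.TH.H21.Ml
import Pool.Agent.Lib.MP_b1a3a4_al.MVS.TH.H31.Defo
import Pool.Agent.Lib.MP_b1a3a4_al.MVS.TH.H31.Ec1
import Pool.Agent.Lib.MP_b1a3a4_al.MVS.TH.H31.Small
import Pool.Agent.Lib.MP_b1a3a4_al.MVS.TH.H35.Loops
import Pool.Agent.Lib.MP_b1a3a4_al.MVS.TH.H45.Cubh
import Pool.Agent.Lib.MP_b1a3a4_al.MVS.TH.H45.FinalTh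
import Pool.Agent.Lib.MP_b1a3a4_al.MVS.TH.H45.Geo
import Pool.Agent.Lib.MP_b1a3a4_al.MVS.TH.H45.Hur
import Pool.Agent.Lib.MP_b1a3a4_al.MVS.TH.H45.MainTh
import Pool.Agent.Lib.MP_b1a3a4_al.MVS.TH.H45.Pre
import Pool.Agent.Lib.MP_b1a3a4_al.MVS.TH.H49.Ec0
import Pool.Agent.Lib.MP_b1a3a4_al.MVS.TH.H49.Retr
import Pool.Agent.Lib.MP_b1a3a4_al.MVS.TH.H56.Kres
import Pool.Agent.Lib.MP_b1a3a4_al.MVS.TH.H56.Real
import Pool.Agent.Lib.MP_b1a3a4_al.MVS.TH.H59.Ageo
import Pool.Agent.Lib.MP_b1a3a4_al.MVS.TH.H59.Compact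
import Pool.Agent.Lib.MP_b1a3a4_al.MVS.TH.H59.Hatbase
import Pool.Agent.Lib.MP_b1a3a4_al.MVS.TH.H59.Hatc
import Pool.Agent.Lib.MP_b1a3a4_al.MVS.TH.H62.Filli
import Pool.Agent.Lib.MP_b1a3a4_al.MVS.TH.H64.Cl
import Pool.Agent.Lib.MP_b1a3a4_al.MVS.TH.H64.Hatglue
import Pool.Agent.Lib.MP_b1a3a4_al.MVS.TH.H75.DKDK
import Pool.Agent.Lib.MP_b1a3a4_al.MVS.TH.H75.TELE
import Pool.Agent.Lib.MP_b1a3a4_al.MVS.TH.H83.Grid
import Pool.Agent.Lib.MP_b1a3a4_al.MVS.TH.H83.Hatrot
import Pool.Agent.Lib.MP_b1a3a4_al.MVS.TH.H91.Hat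
import Pool.Agent.Lib.MP_b1a3a4_al.MVS.TH.H91.Hatc0
import Pool.Agent.Lib.MP_b1a3a4_al.MVS.TH.H96.Beta
import Pool.Agent.Lib.MP_b1a3a4_al.MVS.TH.H96.Cubhs
import Pool.Agent.Lib.MP_b1a3a4_al.MVS.TH.H96.Flatp
import Pool.Agent.Lib.MP_b1a3a4_al.MVS.TH.H96.Recd

/-!
# Project MVS, part V (the homotopical invariants): assembly
-/

set_option linter.all false

namespace Pool.Agent.Lib.MP_b1a3a4_al.MVS.TH

open MVS MVS.HO MVS.LG

theorem dkdkT : DkdkStatement := H75.dkdk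
theorem kresT : KresStatement := H56.kres dkdkT
theorem flatpT : FlatpStatement := H96.flatp fpresT
theorem cubhsT : CubhsStatement := H96.cubhs dkdkT kresT flatpT heqT
theorem cubhT : CubhStatement := H45.cubh dkdkT cubhsT
theorem teleT : TeleStatement := H75.tele dkdkT
theorem loopsT : LoopsStatement := H35.loops
theorem famT : FamStatement := H21.fam
theorem retrT : RetrStatement := H49.retr
theorem filliT : FilliStatement := H62.filli famT
theorem recdT : RecdStatement := H96.recd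
theorem realT : RealStatement := H56.real famT
theorem clT : ClStatement := H64.cl
theorem hatbaseT : HatbaseStatement := H59.hatbase
theorem hatglueT : HatglueStatement := H64.hatglue
theorem hatrotT : HatrotStatement := H83.hatrot
theorem hatT : HatStatement := H91.hat hatbaseT hatglueT hatrotT
theorem hatc0T : Hatc0Statement := H91.hatc0 famT retrT
theorem hatcT : HatcStatement := H59.hatc hatc0T hatT hatbaseT
theorem gridT : GridStatement := H83.grid
theorem grid1T : Grid1Statement := H21.grid1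
theorem defoT : DefoStatement := H31.defo famT retrT filliT recdT
theorem preT : PreStatement := H45.pre retrT realT defoT
theorem ec0T : Ec0Statement := H49.ec0
theorem ec1T : Ec1Statement := H31.ec1 preT loopsT clT hatbaseT grid1T hatcT
theorem hurT : HurStatement := H45.hur preT cubhT teleT clT hatT gridT hatcT
theorem mainT : MainStatement := H45.mainth ec0T ec1T hurT
theorem mlT : MlStatement := H21.ml
theorem compactT : CompactStatement := H59.compact
theorem betaT : BetaStatement := H96.beta mlT compactT recdT famT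
theorem smallT : SmallStatement := H31.small mlT
theorem ageoT : AgeoStatement := H59.ageo betaT smallT retrT
theorem geoT : GeoStatement := H45.geo
theorem finalthT : FinalThStatement := H45.finalth geoT ageoT mainT

/-- The final statement for limit groups. -/
theorem finaltopT (m n : ℕ) (hn : 2 ≤ n) (hm : n ≤ m) (L : Fin m → Type) [∀ i, Group (L i)]
    (hL : ∀ i, FRF (L i)) (S : Subgroup (∀ i, L i))
    (hab : ∀ i, NonAb (pr S i) ∨ IsCyclic (pr S i)) (hS : FPn ℤ S n)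
    (χ : S →* Multiplicative ℝ) (hχ : χ ≠ 1) (hc : SameProj S χ n) :
    (Group.IsFinitelyPresented S → InSigmaTop n χ) ∧ InSigma ℤ n χ ∧ InSigma ℚ n χ := by
  obtain ⟨h1, h2, h3⟩ := finallgT m n hn hm L hL S hab hS χ hχ hc
  exact ⟨fun hfp => finalthT S χ n hχ h2 hfp (h1 hfp), h2, h3⟩

end Pool.Agent.Lib.MP_b1a3a4_al.MVS.TH
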